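import Mathlib
import Pool.Agent.Work.MP_bbb683_h63.Near

/-!
# MP_bbb683_co: putting a Sidon set behind another one (extension lemma)
-/

set_option autoImplicit false

namespace Pool.Agent.Work.MP_bbb683_l63

open Finset
open Pool.Agent.Work.MP_bbb683_h63 (SidonF)

/-- the weight of a finite set -/
noncomputable def w (B : Finset ℕ) : ℝ := ∑ b ∈ B, 1 / √(b : ℝ)

theorem w_nonneg (B : Finset ℕ) : 0 ≤ w B := Finset.sum_nonneg fun b _ => by positivity

theorem w_mono {B C : Finset ℕ} (h : B ⊆ C) : w B ≤ w C :=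
  Finset.sum_le_sum_of_subset_of_nonneg h fun b _ _ => by positivity

theorem sidonF_mono {B C : Finset ℕ} (h : B ⊆ C) (hC : SidonF C) : SidonF B :=
  fun a ha b hb c hc d hd e => hC a (h ha) b (h hb) c (h hc) d (h hd) e

/-- one of the four classes has a quarter of the weight -/
theorem exists_class (B : Finset ℕ) (h : ℕ) (hh : 1 ≤ h) :
    ∃ j < 4, w B / 4 ≤ w (B.filter fun b => b % (4 * h) / h = j) := by
  classical
  have hmaps : ∀ b ∈ B, b % (4 * h) / h ∈ range 4 := by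
    intro b _
    rw [mem_range]
    have h1 : b % (4 * h) < 4 * h := Nat.mod_lt _ (by omega)
    exact Nat.div_lt_of_lt_mul (by omega)
  have hsum : ∑ j ∈ range 4, w (B.filter fun b => b % (4 * h) / h = j) = w B := by
    unfold w
    exact Finset.sum_fiberwise_of_maps_to hmaps _
  by_contra hcon
  push Not at hcon
  have h1 : ∑ j ∈ range 4, w (B.filter fun b => b % (4 * h) / h = j) <
      ∑ _j ∈ range 4, w B / 4 := by
    apply Finset.sum_lt_sum_of_nonempty ⟨0, by simp⟩
    intro j hj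
    exact hcon j (mem_range.1 hj)
  rw [hsum, Finset.sum_const, card_range] at h1
  simp only [nsmul_eq_mul] at h1
  push_cast at h1
  linarith

/-- no equation with one small element -/
theorem no_conflict {h j t : ℕ} (hjt : h * j + t = 6 * h - 1) (hh : 1 ≤ h) {a x y z : ℕ}
    (ha : a < h) (hx : x % (4 * h) / h = j) (hy : y % (4 * h) / h = j)
    (hz : z % (4 * h) / h = j) : a + (x + t) ≠ (y + t) + (z + t) := by
  intro he
  have key : ∀ b : ℕ, b % (4 * h) / h = j → ∃ k r, r < h ∧ b = 4 * h * k + (h * j + r) := by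
    intro b hb
    refine ⟨b / (4 * h), b % (4 * h) % h, Nat.mod_lt _ (by omega), ?_⟩
    have h1 := Nat.div_add_mod b (4 * h)
    have h2 := Nat.div_add_mod (b % (4 * h)) h
    rw [hb] at h2
    omega
  obtain ⟨k1, r1, hr1, rfl⟩ := key x hx
  obtain ⟨k2, r2, hr2, rfl⟩ := key y hy
  obtain ⟨k3, r3, hr3, rfl⟩ := key z hz
  have h4 : a + r1 + 1 + 4 * h * k1 = 4 * h * (k2 + k3) + 6 * h + r2 + r3 := by
    have h5 : 4 * h * (k2 + k3) = 4 * h * k2 + 4 * h * k3 := by ring
    omega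
  rcases Nat.lt_or_ge k1 (k2 + k3 + 2) with h6 | h6
  · have h7 : 4 * h * k1 ≤ 4 * h * (k2 + k3 + 1) := Nat.mul_le_mul_left _ (by omega)
    have h8 : 4 * h * (k2 + k3 + 1) = 4 * h * (k2 + k3) + 4 * h := by ring
    omega
  · have h7 : 4 * h * (k2 + k3 + 2) ≤ 4 * h * k1 := Nat.mul_le_mul_left _ h6
    have h8 : 4 * h * (k2 + k3 + 2) = 4 * h * (k2 + k3) + 8 * h := by ring
    omega

/-- elements with a close smaller neighbour -/
def Bad (C : Finset ℕ) (h : ℕ) : Finset ℕ := by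
  classical
  exact C.filter fun c => ∃ c' ∈ C, c' < c ∧ c < c' + h

theorem mem_Bad {C : Finset ℕ} {h c : ℕ} :
    c ∈ Bad C h ↔ c ∈ C ∧ ∃ c' ∈ C, c' < c ∧ c < c' + h := by
  classical
  unfold Bad
  rw [mem_filter]

theorem card_Bad {C : Finset ℕ} (hC : SidonF C) (h : ℕ) : (Bad C h).card ≤ h := by
  classical
  have h1 : ∀ c ∈ Bad C h, ∃ c' ∈ C, c' < c ∧ c < c' + h := fun c hc => (mem_Bad.1 hc).2
  choose! g hg1 hg2 hg3 using h1
  have h0 : (Bad C h).card ≤ (range h).card := by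
   apply Finset.card_le_card_of_injOn (fun c => c - g c)
   · intro c hc
     have h2 := hg2 c hc
     have h3 := hg3 c hc
     simp only [coe_range, Set.mem_Iio]
     omega
   · intro c hc d hd hcd
     have hc' := mem_coe.1 hc
     have hd' := mem_coe.1 hd
     have h2 := hg2 c hc'
     have h4 := hg2 d hd'
     simp only at hcd
     rcases hC c (mem_Bad.1 hc').1 (g d) (hg1 d hd') d (mem_Bad.1 hd').1 (g c) (hg1 c hc')
       (by omega) with h5 | h5
     · exact h5.1
     · omega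
  rwa [card_range] at h0

theorem union_sidon {A C : Finset ℕ} {h M : ℕ} (hA : SidonF A) (hC : SidonF C)
    (hAh : ∀ a ∈ A, a < h) (hM : 2 * h ≤ M) (hCM : ∀ c ∈ C, M ≤ c)
    (hsep : ∀ c ∈ C, ∀ c' ∈ C, c' < c → c' + h ≤ c)
    (hcon : ∀ a < h, ∀ x ∈ C, ∀ y ∈ C, ∀ z ∈ C, a + x ≠ y + z) : SidonF (A ∪ C) := by
  have hsep2 : ∀ c ∈ C, ∀ c' ∈ C, ∀ a ∈ A, ∀ a' ∈ A, c + a = c' + a' → c = c' := by
    intro c hc c' hc' a ha a' ha' he
    have h1 := hAh a ha
    have h2 := hAh a' ha'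
    rcases lt_trichotomy c c' with h3 | h3 | h3
    · have := hsep c' hc' c hc h3
      omega
    · exact h3
    · have := hsep c hc c' hc' h3
      omega
  intro a ha b hb c hc d hd he
  rw [mem_union] at ha hb hc hd
  rcases ha with ha | ha <;> rcases hb with hb | hb <;> rcases hc with hc | hc <;>
    rcases hd with hd | hd
  · exact hA a ha b hb c hc d hd he
  · have := hAh a ha; have := hAh b hb; have := hCM d hd; omega
  · have := hAh a ha; have := hAh b hb; have := hCM c hc; omega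
  · have := hAh a ha; have := hAh b hb; have := hCM c hc; omega
  · have := hAh a ha; have := hCM b hb; have := hAh c hc; have := hAh d hd; omega
  · have h1 := hsep2 b hb d hd a ha c hc (by omega)
    left
    exact ⟨by omega, h1⟩
  · have h1 := hsep2 b hb c hc a ha d hd (by omega)
    right
    exact ⟨by omega, h1⟩
  · exact absurd he (hcon a (hAh a ha) b hb c hc d hd)
  · have := hCM a ha; have := hAh b hb; have := hAh c hc; have := hAh d hd; omega
  · have h1 := hsep2 a ha d hd b hb c hc (by omega)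
    right
    exact ⟨h1, by omega⟩
  · have h1 := hsep2 a ha c hc b hb d hd (by omega)
    left
    exact ⟨h1, by omega⟩
  · exact absurd (by omega) (hcon b (hAh b hb) a ha c hc d hd)
  · have := hCM a ha; have := hCM b hb; have := hAh c hc; have := hAh d hd; omega
  · exact absurd (by omega) (hcon c (hAh c hc) d hd a ha b hb)
  · exact absurd (by omega) (hcon d (hAh d hd) c hc a ha b hb)
  · exact hC a ha b hb c hc d hd he

theorem sqrt_shift {b t : ℕ} (hb : 0 < b) (ht : 16 * t ≤ 9 * b) :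
    4 / 5 * (1 / √(b : ℝ)) ≤ 1 / √((b + t : ℕ) : ℝ) := by
  have hb0 : (0 : ℝ) < b := by exact_mod_cast hb
  have h1 : √((b + t : ℕ) : ℝ) ≤ 5 / 4 * √(b : ℝ) := by
    rw [Real.sqrt_le_left (by positivity), mul_pow, Real.sq_sqrt hb0.le]
    have h2 : ((16 * t : ℕ) : ℝ) ≤ ((9 * b : ℕ) : ℝ) := by exact_mod_cast ht
    push_cast at h2 ⊢
    linarith
  have h2 : 0 < √(b : ℝ) := Real.sqrt_pos.2 hb0
  have h3 : 0 < √((b + t : ℕ) : ℝ) := Real.sqrt_pos.2 (by push_cast; positivity)
  rw [mul_one_div, div_le_div_iff₀ h2 h3]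
  linarith

/-- the extension lemma -/
theorem ext (A B : Finset ℕ) (h M : ℕ) (hA : SidonF A) (hB : SidonF B) (hAh : ∀ a ∈ A, a < h)
    (hh : 1 ≤ h) (hBM : ∀ b ∈ B, M ≤ b) (hM1 : 11 * h ≤ M) (hM2 : h ^ 2 ≤ M) :
    ∃ C : Finset ℕ, C.card ≤ B.card ∧ (∀ c ∈ C, M ≤ c) ∧ (∀ c ∈ C, ∃ b ∈ B, c ≤ b + 6 * h) ∧
      SidonF (A ∪ C) ∧ w B / 5 - 1 ≤ w C := by
  classical
  obtain ⟨j, hj, hw⟩ := exists_class B h hh
  set Bj := B.filter fun b => b % (4 * h) / h = j with hBj
  obtain ⟨t, ht⟩ : ∃ t, h * j + t = 6 * h - 1 := by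
    refine ⟨6 * h - 1 - h * j, ?_⟩
    have : h * j ≤ h * 3 := Nat.mul_le_mul_left _ (by omega)
    omega
  have ht6 : t ≤ 6 * h := by omega
  set C0 := Bj.image (· + t) with hC0
  have hmem0 : ∀ c ∈ C0, ∃ b ∈ B, b % (4 * h) / h = j ∧ c = b + t := by
    intro c hc
    rw [hC0, mem_image] at hc
    obtain ⟨b, hb, rfl⟩ := hc
    rw [hBj, mem_filter] at hb
    exact ⟨b, hb.1, hb.2, rfl⟩
  have hS0 : SidonF C0 := by
    intro x hx y hy z hz v hv he
    obtain ⟨x, hx1, -, rfl⟩ := hmem0 x hx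
    obtain ⟨y, hy1, -, rfl⟩ := hmem0 y hy
    obtain ⟨z, hz1, -, rfl⟩ := hmem0 z hz
    obtain ⟨v, hv1, -, rfl⟩ := hmem0 v hv
    rcases hB x hx1 y hy1 z hz1 v hv1 (by omega) with h1 | h1
    · left; omega
    · right; omega
  have hC0M : ∀ c ∈ C0, M ≤ c := by
    intro c hc
    obtain ⟨b, hb, -, rfl⟩ := hmem0 c hc
    have := hBM b hb
    omega
  set C := C0 \ Bad C0 h with hC
  have hCC0 : C ⊆ C0 := sdiff_subset
  refine ⟨C, ?_, fun c hc => hC0M c (hCC0 hc), ?_, ?_, ?_⟩
  · calc C.card ≤ C0.card := card_le_card hCC0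
      _ ≤ Bj.card := card_image_le
      _ ≤ B.card := card_filter_le _ _
  · intro c hc
    obtain ⟨b, hb, -, rfl⟩ := hmem0 c (hCC0 hc)
    exact ⟨b, hb, by omega⟩
  · apply union_sidon hA (sidonF_mono hCC0 hS0) hAh (M := M) (by omega)
      (fun c hc => hC0M c (hCC0 hc))
    · intro c hc c' hc' hlt
      by_contra hcon
      rw [hC, mem_sdiff] at hc
      exact hc.2 (mem_Bad.2 ⟨hc.1, c', hCC0 hc', hlt, by omega⟩)
    · intro a ha x hx y hy z hz
      obtain ⟨x, -, hx1, rfl⟩ := hmem0 x (hCC0 hx)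
      obtain ⟨y, -, hy1, rfl⟩ := hmem0 y (hCC0 hy)
      obtain ⟨z, -, hz1, rfl⟩ := hmem0 z (hCC0 hz)
      exact no_conflict ht hh ha hx1 hy1 hz1
  · -- weights
    have hM0 : 0 < M := by omega
    have h1 : 4 / 5 * w Bj ≤ w C0 := by
      have h2 : w C0 = ∑ b ∈ Bj, 1 / √((b + t : ℕ) : ℝ) := by
        unfold w
        rw [hC0, sum_image]
        intro x _ y _ hxy
        simpa using hxy
      rw [h2]
      unfold w
      rw [mul_sum]
      apply Finset.sum_le_sum
      intro b hb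
      have hbB : b ∈ B := (mem_filter.1 hb).1
      have := hBM b hbB
      exact sqrt_shift (by omega) (by omega)
    have h3 : w (Bad C0 h) ≤ 1 := by
      have h4 : ∀ c ∈ Bad C0 h, 1 / √(c : ℝ) ≤ 1 / h := by
        intro c hc
        have h5 := hC0M c (mem_Bad.1 hc).1
        have h6 : (h : ℝ) ≤ √(c : ℝ) := by
          apply Real.le_sqrt_of_sq_le
          exact_mod_cast hM2.trans h5
        have h7 : (0 : ℝ) < h := by exact_mod_cast hh
        exact one_div_le_one_div_of_le h7 h6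
      unfold w
      calc ∑ c ∈ Bad C0 h, 1 / √(c : ℝ) ≤ (Bad C0 h).card • (1 / (h : ℝ)) :=
            Finset.sum_le_card_nsmul _ _ _ h4
        _ = (Bad C0 h).card / (h : ℝ) := by rw [nsmul_eq_mul, mul_one_div]
        _ ≤ 1 := by
            rw [div_le_one (by exact_mod_cast hh)]
            exact_mod_cast card_Bad hS0 h
    have h5 : w C + w (Bad C0 h) = w C0 := by
      unfold w
      rw [hC]
      exact Finset.sum_sdiff (fun c hc => (mem_Bad.1 hc).1)
    linarith

end Pool.Agent.Work.MP_bbb683_l63
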