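import Mathlib
import Pool.Agent.Work.MP_bbb683_l63.Ext

/-!
# MP_bbb683_co: sequences from chains of finite sets
-/

set_option autoImplicit false

namespace Pool.Agent.Work.MP_bbb683_l63

open Finset
open Pool.Agent.Work.MP_bbb683_h63 (SidonF)

/-- a strictly increasing Sidon sequence of positive integers -/
structure SS (a : ℕ → ℕ) : Prop where
  mono : StrictMono a
  pos : 0 < a 0
  sidon : ∀ i j k l, i ≤ j → k ≤ l → a i + a j = a k + a l → i = k ∧ j = l

/-- the partial sums -/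
noncomputable def Sx (a : ℕ → ℕ) (x : ℕ) : ℝ := ∑ i ∈ range x, 1 / √(a i : ℝ)

theorem Sx_mono (a : ℕ → ℕ) {x y : ℕ} (h : x ≤ y) : Sx a x ≤ Sx a y := by
  unfold Sx
  exact Finset.sum_le_sum_of_subset_of_nonneg (range_mono h) fun i _ _ => by positivity

/-- end extension -/
structure EE (A A' : Finset ℕ) : Prop where
  sub : A ⊆ A'
  ord : ∀ a ∈ A, ∀ b ∈ A', b ∉ A → a < b
  lt : A.card < A'.card

theorem lower_eq_range (I : Finset ℕ) (hI : ∀ i ∈ I, ∀ j, j ≤ i → j ∈ I) : I = range I.card := by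
  have h1 : I ⊆ range I.card := by
    intro x hx
    rw [mem_range]
    have h2 : range (x + 1) ⊆ I := by
      intro j hj
      rw [mem_range] at hj
      exact hI x hx j (by omega)
    have h3 := card_le_card h2
    rw [card_range] at h3
    omega
  exact Finset.eq_of_subset_of_card_le h1 (by rw [card_range])

theorem seq_of_chain (A : ℕ → Finset ℕ) (hS : ∀ n, SidonF (A n)) (hpos : ∀ n, ∀ a ∈ A n, 0 < a)
    (hE : ∀ n, EE (A n) (A (n + 1))) :
    ∃ a : ℕ → ℕ, SS a ∧ (∀ n, (range (A n).card).image a = A n) ∧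
      ∀ n, Sx a (A n).card = w (A n) := by
  classical
  set U : Set ℕ := {x | ∃ n, x ∈ A n} with hU
  have hcard : ∀ n, n ≤ (A n).card := by
    intro n
    induction n with
    | zero => exact Nat.zero_le _
    | succ n ih => have := (hE n).lt; omega
  have hsub : ∀ n m, n ≤ m → A n ⊆ A m := by
    intro n m hnm
    induction m, hnm using Nat.le_induction with
    | base => exact subset_rfl
    | succ m _ ih => exact ih.trans (hE m).sub
  have hord : ∀ n m, n ≤ m → ∀ a ∈ A n, ∀ b ∈ A m, b ∉ A n → a < b := by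
    intro n m hnm
    induction m, hnm using Nat.le_induction with
    | base => intro a _ b hb hb'; exact absurd hb hb'
    | succ m hm ih =>
      intro a ha b hb hb'
      by_cases h1 : b ∈ A m
      · exact ih a ha b h1 hb'
      · exact (hE m).ord a (hsub n m hm ha) b hb h1
  have hinf : U.Infinite := by
    intro hfin
    have h1 : ∀ n, n ≤ hfin.toFinset.card := by
      intro n
      refine (hcard n).trans (card_le_card ?_)
      intro x hx
      rw [Set.Finite.mem_toFinset]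
      exact ⟨n, hx⟩
    have := h1 (hfin.toFinset.card + 1)
    omega
  set a : ℕ → ℕ := Nat.nth (· ∈ U) with ha
  have hmono : StrictMono a := Nat.nth_strictMono hinf
  have hrange : Set.range a = U := Nat.range_nth_of_infinite hinf
  have himg : ∀ n, (range (A n).card).image a = A n := by
    intro n
    set I := (A n).preimage a hmono.injective.injOn with hI
    have h1 : I.image a = A n := by
      rw [hI, Finset.image_preimage]
      apply Finset.filter_true_of_mem
      intro x hx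
      rw [hrange]
      exact ⟨n, hx⟩
    have h2 : I.card = (A n).card := by
      rw [← h1, card_image_of_injective _ hmono.injective]
    have h3 : I = range I.card := by
      apply lower_eq_range
      intro i hi j hj
      rw [hI, mem_preimage] at hi ⊢
      rcases hj.eq_or_lt with h4 | h4
      · rw [h4]; exact hi
      · by_contra hcon
        have h5 : a j ∈ U := by rw [← hrange]; exact ⟨j, rfl⟩
        obtain ⟨m, hm⟩ := h5
        have h6 : a i < a j := hord n (max n m) (le_max_left _ _) (a i) hi (a j)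
          (hsub m _ (le_max_right _ _) hm) hcon
        exact absurd (hmono h4) (by omega)
    rw [h2] at h3
    rw [← h3, h1]
  refine ⟨a, ⟨hmono, ?_, ?_⟩, himg, ?_⟩
  · have h1 : a 0 ∈ U := by rw [← hrange]; exact ⟨0, rfl⟩
    obtain ⟨n, hn⟩ := h1
    exact hpos n _ hn
  · intro i j k l hij hkl he
    set n := i + j + k + l + 1 with hn
    have h1 : ∀ m, m < n → a m ∈ A n := by
      intro m hm
      rw [← himg n, mem_image]
      exact ⟨m, by rw [mem_range]; have := hcard n; omega, rfl⟩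
    rcases hS n (a i) (h1 i (by omega)) (a j) (h1 j (by omega)) (a k) (h1 k (by omega)) (a l)
      (h1 l (by omega)) he with h2 | h2
    · exact ⟨hmono.injective h2.1, hmono.injective h2.2⟩
    · have h3 := hmono.injective h2.1
      have h4 := hmono.injective h2.2
      omega
  · intro n
    unfold Sx w
    conv_rhs => rw [← himg n]
    rw [sum_image fun x _ y _ hxy => hmono.injective hxy]

theorem chain_exists {P : ℕ → Finset ℕ → Prop} {R : Finset ℕ → Finset ℕ → Prop} (A0 : Finset ℕ)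
    (h0 : P 0 A0) (hstep : ∀ n A, P n A → ∃ A', P (n + 1) A' ∧ R A A') :
    ∃ A : ℕ → Finset ℕ, A 0 = A0 ∧ (∀ n, P n (A n)) ∧ ∀ n, R (A n) (A (n + 1)) := by
  choose f hf1 hf2 using hstep
  let F : ∀ n, {A // P n A} := fun n => Nat.rec (motive := fun n => {A // P n A}) ⟨A0, h0⟩
    (fun n A => ⟨f n A.1 A.2, hf1 n A.1 A.2⟩) n
  exact ⟨fun n => (F n).1, rfl, fun n => (F n).2, fun n => hf2 n (F n).1 (F n).2⟩

/-- good finite sets behind every `M` -/
def HH (c : ℝ) : Prop := ∀ M x0 : ℕ, ∃ x, x0 ≤ x ∧ ∃ B : Finset ℕ, SidonF B ∧ (∀ b ∈ B, M ≤ b) ∧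
  B.card ≤ x ∧ c * √(Real.log x) ≤ w B

theorem exists_log_ge (T : ℝ) : ∃ X : ℕ, 2 ≤ X ∧ ∀ x : ℕ, X ≤ x → T ≤ √(Real.log x) := by
  refine ⟨max 2 ⌈Real.exp (T ^ 2)⌉₊, le_max_left _ _, fun x hx => ?_⟩
  have h1 : Real.exp (T ^ 2) ≤ x := by
    have h2 := Nat.le_ceil (Real.exp (T ^ 2))
    have h3 : ((⌈Real.exp (T ^ 2)⌉₊ : ℕ) : ℝ) ≤ x := by
      exact_mod_cast (le_max_right _ _).trans hx
    linarith
  have h2 : T ^ 2 ≤ Real.log x := by
    rw [Real.le_log_iff_exp_le (lt_of_lt_of_le (Real.exp_pos _) h1)]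
    exact h1
  exact Real.le_sqrt_of_sq_le h2

theorem log_double (x : ℕ) (hx : 2 ≤ x) :
    √(Real.log (2 * x : ℕ)) ≤ √(Real.log x) + 1 := by
  have h0 : (0 : ℝ) < x := by exact_mod_cast (by omega : 0 < x)
  have h1 : Real.log (2 * x : ℕ) = Real.log 2 + Real.log x := by
    push_cast
    rw [Real.log_mul (by norm_num) h0.ne']
  have h2 : 0 ≤ Real.log x := Real.log_nonneg (by exact_mod_cast (by omega : 1 ≤ x))
  rw [h1, Real.sqrt_le_left (by positivity)]
  have h3 := Real.sq_sqrt h2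
  have h4 := Real.sqrt_nonneg (Real.log x)
  have h5 := Real.log_two_lt_d9
  nlinarith

theorem step_set (A B : Finset ℕ) (h M : ℕ) (hA : SidonF A) (hB : SidonF B)
    (hApos : ∀ a ∈ A, 0 < a) (hAh : ∀ a ∈ A, a < h) (hh : 1 ≤ h) (hBM : ∀ b ∈ B, M ≤ b)
    (hM1 : 11 * h ≤ M) (hM2 : h ^ 2 ≤ M) (hw : 5 < w B) :
    ∃ A' : Finset ℕ, SidonF A' ∧ (∀ a ∈ A', 0 < a) ∧ EE A A' ∧ A'.card ≤ A.card + B.card ∧
      w B / 5 - 1 ≤ w A' ∧ ∀ a ∈ A', a < h ∨ ∃ b ∈ B, a ≤ b + 6 * h := by
  classical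
  obtain ⟨C, hC1, hC2, hC3, hC4, hC5⟩ := ext A B h M hA hB hAh hh hBM hM1 hM2
  refine ⟨A ∪ C, hC4, ?_, ⟨subset_union_left, ?_, ?_⟩, ?_, ?_, ?_⟩
  · intro a ha
    rw [mem_union] at ha
    rcases ha with ha | ha
    · exact hApos a ha
    · have := hC2 a ha
      omega
  · intro a ha b hb hb'
    rw [mem_union] at hb
    rcases hb with hb | hb
    · exact absurd hb hb'
    · have := hC2 b hb
      have := hAh a ha
      omega
  · have h1 : C.Nonempty := by
      rw [Finset.nonempty_iff_ne_empty]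
      intro h2
      rw [h2] at hC5
      unfold w at hC5 hw
      rw [Finset.sum_empty] at hC5
      linarith
    have h2 : Disjoint A C := by
      rw [Finset.disjoint_left]
      intro a ha hc
      have := hC2 a hc
      have := hAh a ha
      omega
    rw [card_union_of_disjoint h2]
    have := h1.card_pos
    omega
  · exact (card_union_le _ _).trans (by omega)
  · exact hC5.trans (w_mono subset_union_right)
  · intro a ha
    rw [mem_union] at ha
    rcases ha with ha | ha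
    · exact Or.inl (hAh a ha)
    · exact Or.inr (hC3 a ha)

/-- the limsup version of the extension theorem -/
theorem limsup_ext (c : ℝ) (hc : 0 < c) (H : HH c) (A0 : Finset ℕ) (hA0 : SidonF A0)
    (hpos : ∀ a ∈ A0, 0 < a) :
    ∃ a : ℕ → ℕ, SS a ∧ (range A0.card).image a = A0 ∧
      ∀ N : ℕ, ∃ x, N ≤ x ∧ c / 6 * √(Real.log x) ≤ Sx a x := by
  classical
  obtain ⟨X, hX2, hX⟩ := exists_log_ge (30 * (1 + c / 6) / c)
  have hstep : ∀ (n : ℕ) (A : Finset ℕ), (SidonF A ∧ (∀ a ∈ A, 0 < a) ∧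
      (n = 0 ∨ ∃ y, n ≤ y ∧ A.card ≤ y ∧ c / 6 * √(Real.log y) ≤ w A)) →
      ∃ A' : Finset ℕ, (SidonF A' ∧ (∀ a ∈ A', 0 < a) ∧
        (n + 1 = 0 ∨ ∃ y, n + 1 ≤ y ∧ A'.card ≤ y ∧ c / 6 * √(Real.log y) ≤ w A')) ∧ EE A A' := by
    intro n A ⟨h1, h2, _⟩
    set h := A.sup id + 1 with hh
    have hAh : ∀ a ∈ A, a < h := by
      intro a ha
      have : a ≤ A.sup id := Finset.le_sup (f := id) ha
      omega
    obtain ⟨x, hx0, B, hB1, hB2, hB3, hB4⟩ := H (11 * h + h ^ 2) (n + 1 + A.card + X)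
    have hxX := hX x (by omega)
    rw [div_le_iff₀ hc] at hxX
    obtain ⟨A', e1, e2, e3, e4, e5, -⟩ := step_set A B h (11 * h + h ^ 2) h1 hB1 h2 hAh (by omega)
      hB2 (by omega) (by omega) (by nlinarith)
    refine ⟨A', ⟨e1, e2, Or.inr ⟨2 * x, by omega, by omega, ?_⟩⟩, e3⟩
    have h5 := log_double x (by omega)
    have h6 : c / 6 * √(Real.log (2 * x : ℕ)) ≤ c / 6 * (√(Real.log x) + 1) :=
      mul_le_mul_of_nonneg_left h5 (by positivity)
    nlinarith
  obtain ⟨A, hA0', hA, hE⟩ := chain_exists (P := fun n A => SidonF A ∧ (∀ a ∈ A, 0 < a) ∧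
      (n = 0 ∨ ∃ y, n ≤ y ∧ A.card ≤ y ∧ c / 6 * √(Real.log y) ≤ w A)) (R := EE) A0
    ⟨hA0, hpos, Or.inl rfl⟩ hstep
  obtain ⟨a, ha, himg, hSx⟩ := seq_of_chain A (fun n => (hA n).1) (fun n => (hA n).2.1) hE
  refine ⟨a, ha, ?_, ?_⟩
  · have := himg 0
    rwa [hA0'] at this
  · intro N
    obtain ⟨-, -, h3⟩ := hA (N + 1)
    rcases h3 with h3 | ⟨y, hy1, hy2, hy3⟩
    · omega
    · refine ⟨y, by omega, ?_⟩
      calc c / 6 * √(Real.log y) ≤ w (A (N + 1)) := hy3
        _ = Sx a (A (N + 1)).card := (hSx _).symm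
        _ ≤ Sx a y := Sx_mono a hy2

end Pool.Agent.Work.MP_bbb683_l63
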