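import Mathlib
import Pool.Agent.Work.MP_bbb683_l63.Chain
import Pool.Agent.Work.MP_bbb683_h63.Fin

/-!
# MP_bbb683_co: localisation between `N` and `N ^ (1 + ε)`
-/

set_option autoImplicit false

namespace Pool.Agent.Work.MP_bbb683_l63

open Finset
open Pool.Agent.Work.MP_bbb683_h63 (SidonF sidonF_image)

theorem Sx_eq_w {a : ℕ → ℕ} (ha : StrictMono a) (x : ℕ) : Sx a x = w ((range x).image a) := by
  unfold Sx w
  rw [sum_image fun i _ j _ h => ha.injective h]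

theorem w_split (B : Finset ℕ) (p : ℕ → Prop) [DecidablePred p] :
    w B = w (B.filter p) + w (B.filter fun b => ¬ p b) := by
  unfold w
  rw [Finset.sum_filter_add_sum_filter_not]

theorem w_le_card (B : Finset ℕ) (T : ℝ) (hT : 0 < T) (h : ∀ b ∈ B, T ^ 2 ≤ (b : ℝ)) :
    w B ≤ B.card / T := by
  unfold w
  calc ∑ b ∈ B, 1 / √(b : ℝ) ≤ B.card • (1 / T) := by
        apply Finset.sum_le_card_nsmul
        intro b hb
        exact one_div_le_one_div_of_le hT (Real.le_sqrt_of_sq_le (h b hb))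
    _ = B.card / T := by rw [nsmul_eq_mul, mul_one_div]

theorem tail (a : ℕ → ℕ) (ha : SS a) (x : ℕ) (hx : 1 ≤ x) :
    Sx a x ≤ w (((range x).image a).filter (· ≤ x ^ 4)) + 1 := by
  classical
  rw [Sx_eq_w ha.mono, w_split _ (· ≤ x ^ 4)]
  have hx0 : (0 : ℝ) < x := by exact_mod_cast hx
  have h1 : w (((range x).image a).filter fun b => ¬ b ≤ x ^ 4) ≤ 1 := by
    refine (w_le_card _ ((x : ℝ) ^ 2) (by positivity) ?_).trans ?_
    · intro b hb
      rw [mem_filter] at hb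
      have h2 : x ^ 4 ≤ b := by omega
      have h3 : ((x ^ 4 : ℕ) : ℝ) ≤ b := by exact_mod_cast h2
      push_cast at h3
      calc ((x : ℝ) ^ 2) ^ 2 = (x : ℝ) ^ 4 := by ring
        _ ≤ (b : ℝ) := h3
    · rw [div_le_one (by positivity)]
      have h2 : ((((range x).image a).filter fun b => ¬ b ≤ x ^ 4).card : ℝ) ≤ x := by
        have h3 := (card_filter_le ((range x).image a) fun b => ¬ b ≤ x ^ 4).trans
          (card_image_le (s := range x) (f := a))
        rw [card_range] at h3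
        exact_mod_cast h3
      have h3 : (1 : ℝ) ≤ x := by exact_mod_cast hx
      nlinarith
  linarith

theorem w_le_nat (B : Finset ℕ) (M : ℕ) (h : ∀ b ∈ B, 0 < b ∧ b ≤ M) : w B ≤ M := by
  have h1 : w B ≤ B.card / (1 : ℝ) := by
    apply w_le_card _ _ one_pos
    intro b hb
    have := (h b hb).1
    rw [one_pow]
    exact_mod_cast this
  have h2 : B.card ≤ M := by
    have h3 : B ⊆ Icc 1 M := by
      intro b hb
      rw [mem_Icc]
      exact h b hb
    have := card_le_card h3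
    rwa [Nat.card_Icc, Nat.add_sub_cancel] at this
  rw [div_one] at h1
  exact h1.trans (by exact_mod_cast h2)

theorem SS.all_pos {a : ℕ → ℕ} (ha : SS a) (i : ℕ) : 0 < a i :=
  lt_of_lt_of_le ha.pos (ha.mono.monotone (Nat.zero_le i))

theorem HH_of_seq {a : ℕ → ℕ} (ha : SS a) {c c' : ℝ} (hc : c' < c)
    (hf : ∀ N : ℕ, ∃ x, N ≤ x ∧ c * √(Real.log x) ≤ Sx a x) : HH c' := by
  classical
  intro M x0
  obtain ⟨X, hX2, hX⟩ := exists_log_ge (M / (c - c'))
  obtain ⟨x, hx, hxc⟩ := hf (x0 + X)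
  have h1 := hX x (by omega)
  rw [div_le_iff₀ (by linarith)] at h1
  refine ⟨x, by omega, ((range x).image a).filter (fun b => ¬ b < M), ?_, ?_, ?_, ?_⟩
  · exact sidonF_mono (filter_subset _ _) (sidonF_image ha.sidon x)
  · intro b hb
    rw [mem_filter] at hb
    omega
  · have h3 := (card_filter_le ((range x).image a) fun b => ¬ b < M).trans
      (card_image_le (s := range x) (f := a))
    rwa [card_range] at h3
  · rw [Sx_eq_w ha.mono, w_split _ (· < M)] at hxc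
    have h2 : w (((range x).image a).filter (· < M)) ≤ M := by
      apply w_le_nat
      intro b hb
      rw [mem_filter, mem_image] at hb
      obtain ⟨⟨i, -, rfl⟩, h3⟩ := hb
      exact ⟨ha.all_pos i, h3.le⟩
    nlinarith

/-- local version with the constant `c` -/
def LocF (ε c : ℝ) : Prop := ∀ N₀ : ℕ, ∃ N, N₀ ≤ N ∧ ∃ B : Finset ℕ, SidonF B ∧
  (∀ b ∈ B, N ≤ b ∧ (b : ℝ) ≤ (N : ℝ) ^ (1 + ε)) ∧ c * √(Real.log N) ≤ w B

theorem HH_of_loc {ε c : ℝ} (hε : 0 < ε) (hc : 0 < c) (h : LocF ε c) :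
    HH (c / √(1 + ε)) := by
  intro M x0
  obtain ⟨N, hN, B, hB1, hB2, hB3⟩ := h (M + x0 + 2)
  have hN1 : (1 : ℝ) ≤ N := by exact_mod_cast (by omega : 1 ≤ N)
  have hN0 : (0 : ℝ) < N := by linarith
  have hle : (N : ℝ) ≤ (N : ℝ) ^ (1 + ε) := by
    calc (N : ℝ) = (N : ℝ) ^ (1 : ℝ) := (Real.rpow_one _).symm
      _ ≤ (N : ℝ) ^ (1 + ε) := Real.rpow_le_rpow_of_exponent_le hN1 (by linarith)
  have hxN : N ≤ ⌊(N : ℝ) ^ (1 + ε)⌋₊ := Nat.le_floor hle
  refine ⟨⌊(N : ℝ) ^ (1 + ε)⌋₊, by omega, B, hB1, fun b hb => ?_, ?_, ?_⟩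
  · have := (hB2 b hb).1
    omega
  · have h3 : B ⊆ Icc 1 ⌊(N : ℝ) ^ (1 + ε)⌋₊ := by
      intro b hb
      rw [mem_Icc]
      exact ⟨by have := (hB2 b hb).1; omega, Nat.le_floor (hB2 b hb).2⟩
    have := card_le_card h3
    rwa [Nat.card_Icc, Nat.add_sub_cancel] at this
  · refine le_trans ?_ hB3
    have h4 : (0 : ℝ) < (⌊(N : ℝ) ^ (1 + ε)⌋₊ : ℝ) := by
      exact_mod_cast lt_of_lt_of_le (by omega : 0 < N) hxN
    have h5 : Real.log (⌊(N : ℝ) ^ (1 + ε)⌋₊ : ℝ) ≤ (1 + ε) * Real.log N := by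
      rw [← Real.log_rpow hN0]
      exact Real.log_le_log h4 (Nat.floor_le (by positivity))
    have h6 : √(Real.log (⌊(N : ℝ) ^ (1 + ε)⌋₊ : ℝ)) ≤ √(1 + ε) * √(Real.log N) := by
      rw [← Real.sqrt_mul (by linarith)]
      exact Real.sqrt_le_sqrt h5
    have h7 : 0 < √(1 + ε) := Real.sqrt_pos.2 (by linarith)
    rw [div_mul_eq_mul_div, div_le_iff₀ h7]
    calc c * √(Real.log (⌊(N : ℝ) ^ (1 + ε)⌋₊ : ℝ)) ≤ c * (√(1 + ε) * √(Real.log N)) :=
          mul_le_mul_of_nonneg_left h6 hc.le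
      _ = c * √(Real.log N) * √(1 + ε) := by ring

/-- if all local sets are light then all sets are -/
theorem rec_bound' {ε η : ℝ} (hε : 0 < ε) (hη : 0 < η) (N₀ : ℕ)
    (h : ∀ N : ℕ, N₀ ≤ N → ∀ B : Finset ℕ, SidonF B →
      (∀ b ∈ B, N ≤ b ∧ (b : ℝ) ≤ (N : ℝ) ^ (1 + ε)) → w B ≤ η * √(Real.log N)) :
    ∃ K : ℝ, ∀ M : ℕ, 1 ≤ M → ∀ B : Finset ℕ, SidonF B → (∀ b ∈ B, 0 < b ∧ b ≤ M) →
      w B ≤ K + η / (1 - √(1 / (1 + ε))) * √(Real.log M) := by
  classical
  set θ : ℝ := 1 / (1 + ε) with hθ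
  have hθ0 : 0 < θ := by positivity
  have hθ1 : θ < 1 := by
    rw [hθ, div_lt_one (by linarith)]
    linarith
  have hs1 : √θ < 1 := by
    rw [Real.sqrt_lt' one_pos, one_pow]
    exact hθ1
  have hD : 0 < 1 - √θ := by linarith
  set D : ℝ := η / (1 - √θ) with hDdef
  have hD0 : 0 < D := by positivity
  have hDe : D * √θ + η = D := by
    rw [hDdef]
    field_simp
    ring
  -- threshold
  obtain ⟨M₀, hM₀⟩ : ∃ M₀ : ℕ, 4 ≤ M₀ ∧ ∀ M : ℕ, M₀ ≤ M → (N₀ : ℝ) + 2 ≤ (M : ℝ) ^ θ ∧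
      (M : ℝ) ^ θ + 1 ≤ M := by
    have h1 : Filter.Tendsto (fun M : ℕ => (M : ℝ) ^ θ) Filter.atTop Filter.atTop :=
      (tendsto_rpow_atTop hθ0).comp tendsto_natCast_atTop_atTop
    have h2 : ∀ᶠ M : ℕ in Filter.atTop, (N₀ : ℝ) + 2 ≤ (M : ℝ) ^ θ :=
      h1.eventually_ge_atTop _
    have h3 : Filter.Tendsto (fun M : ℕ => (M : ℝ) ^ (1 - θ)) Filter.atTop Filter.atTop :=
      (tendsto_rpow_atTop (by linarith)).comp tendsto_natCast_atTop_atTop
    have h4 : ∀ᶠ M : ℕ in Filter.atTop, (2 : ℝ) ≤ (M : ℝ) ^ (1 - θ) :=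
      h3.eventually_ge_atTop _
    obtain ⟨M₁, hM₁⟩ := Filter.eventually_atTop.1 (h2.and h4)
    refine ⟨max 4 M₁, le_max_left _ _, fun M hM => ?_⟩
    obtain ⟨e1, e2⟩ := hM₁ M ((le_max_right _ _).trans hM)
    refine ⟨e1, ?_⟩
    have hM0 : (0 : ℝ) < M := by
      exact_mod_cast (by have := (le_max_left 4 M₁).trans hM; omega : 0 < M)
    have e3 : (M : ℝ) = (M : ℝ) ^ θ * (M : ℝ) ^ (1 - θ) := by
      rw [← Real.rpow_add hM0]
      simp
    have e4 : (1 : ℝ) ≤ (M : ℝ) ^ θ := by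
      have : (0 : ℝ) ≤ N₀ := Nat.cast_nonneg _
      linarith
    nlinarith
  obtain ⟨hM4, hM₀⟩ := hM₀
  refine ⟨M₀, fun M => ?_⟩
  induction M using Nat.strong_induction_on with
  | _ M ih =>
    intro hM1 B hB hBM
    rcases Nat.lt_or_ge M M₀ with hlt | hge
    · have h1 := w_le_nat B M hBM
      have h2 : (M : ℝ) ≤ M₀ := by exact_mod_cast hlt.le
      have h3 : 0 ≤ D * √(Real.log M) := by positivity
      linarith
    · obtain ⟨e1, e2⟩ := hM₀ M hge
      have hMr : (1 : ℝ) ≤ M := by exact_mod_cast hM1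
      have hM0 : (0 : ℝ) < M := by linarith
      set M' : ℕ := ⌊(M : ℝ) ^ θ⌋₊ with hM'
      have hN₀0 : (0 : ℝ) ≤ N₀ := Nat.cast_nonneg _
      have f1 : (M' : ℝ) ≤ (M : ℝ) ^ θ := Nat.floor_le (by positivity)
      have f2 : (M : ℝ) ^ θ < M' + 1 := Nat.lt_floor_add_one _
      have f3 : M' < M := by
        have : (M' : ℝ) < M := by linarith
        exact_mod_cast this
      have f4 : 1 ≤ M' := by
        have : (1 : ℝ) < M' + 1 := by linarith
        have h5 : (0 : ℝ) < M' := by linarith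
        exact_mod_cast h5
      have f5 : N₀ ≤ M' + 1 := by
        have : (N₀ : ℝ) ≤ M' + 1 := by linarith
        exact_mod_cast this
      have f6 : (M : ℝ) ≤ ((M' + 1 : ℕ) : ℝ) ^ (1 + ε) := by
        calc (M : ℝ) = ((M : ℝ) ^ θ) ^ (1 + ε) := by
              rw [← Real.rpow_mul hM0.le, hθ, one_div, inv_mul_cancel₀ (by linarith),
                Real.rpow_one]
          _ ≤ ((M' + 1 : ℕ) : ℝ) ^ (1 + ε) := by
              apply Real.rpow_le_rpow (by positivity) _ (by linarith)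
              push_cast
              linarith
      have g1 := ih M' f3 f4 (B.filter (· ≤ M')) (sidonF_mono (filter_subset _ _) hB) (by
        intro b hb
        rw [mem_filter] at hb
        exact ⟨(hBM b hb.1).1, hb.2⟩)
      have g2 := h (M' + 1) f5 (B.filter fun b => ¬ b ≤ M')
        (sidonF_mono (filter_subset _ _) hB) (by
        intro b hb
        rw [mem_filter] at hb
        refine ⟨by omega, ?_⟩
        have : (b : ℝ) ≤ M := by exact_mod_cast (hBM b hb.1).2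
        linarith)
      have g3 : √(Real.log (M' : ℝ)) ≤ √θ * √(Real.log M) := by
        rw [← Real.sqrt_mul hθ0.le]
        apply Real.sqrt_le_sqrt
        rw [← Real.log_rpow hM0]
        exact Real.log_le_log (by exact_mod_cast f4) f1
      have g4 : √(Real.log ((M' + 1 : ℕ) : ℝ)) ≤ √(Real.log M) := by
        apply Real.sqrt_le_sqrt
        apply Real.log_le_log (by positivity)
        exact_mod_cast f3
      rw [w_split B (· ≤ M')]
      have g5 : D * √(Real.log (M' : ℝ)) ≤ D * (√θ * √(Real.log M)) :=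
        mul_le_mul_of_nonneg_left g3 hD0.le
      have g6 : η * √(Real.log ((M' + 1 : ℕ) : ℝ)) ≤ η * √(Real.log M) :=
        mul_le_mul_of_nonneg_left g4 hη.le
      calc w (B.filter (· ≤ M')) + w (B.filter fun b => ¬ b ≤ M')
          ≤ (M₀ + D * √(Real.log (M' : ℝ))) + η * √(Real.log ((M' + 1 : ℕ) : ℝ)) :=
            add_le_add g1 g2
        _ ≤ M₀ + (D * √θ + η) * √(Real.log M) := by nlinarith
        _ = M₀ + D * √(Real.log M) := by rw [hDe]

theorem loc_of_seq {a : ℕ → ℕ} (ha : SS a) {c ε : ℝ} (hc : 0 < c) (hε : 0 < ε)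
    (hf : ∀ N : ℕ, ∃ x, N ≤ x ∧ c * √(Real.log x) ≤ Sx a x) :
    LocF ε (c / 8 * (1 - √(1 / (1 + ε)))) := by
  classical
  set η : ℝ := c / 8 * (1 - √(1 / (1 + ε))) with hη
  have hs1 : √(1 / (1 + ε)) < 1 := by
    rw [Real.sqrt_lt' one_pos, one_pow, div_lt_one (by linarith)]
    linarith
  have hη0 : 0 < η := mul_pos (by positivity) (by linarith)
  by_contra hcon
  unfold LocF at hcon
  push Not at hcon
  obtain ⟨N₀, hN₀⟩ := hcon
  obtain ⟨K, hK⟩ := rec_bound' hε hη0 N₀ (fun N hN B hB hBN => (hN₀ N hN B hB hBN).le)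
  have hDe : η / (1 - √(1 / (1 + ε))) = c / 8 := by
    rw [hη]
    have : 1 - √(1 / (1 + ε)) ≠ 0 := by linarith
    field_simp
  rw [hDe] at hK
  obtain ⟨X, hX2, hX⟩ := exists_log_ge (2 * (|K| + 2) / c)
  obtain ⟨x, hx, hxc⟩ := hf X
  have h1 := hX x hx
  rw [div_le_iff₀ hc] at h1
  have h2 := tail a ha x (by omega)
  have h3 := hK (x ^ 4) (Nat.one_le_pow _ _ (by omega)) (((range x).image a).filter (· ≤ x ^ 4))
    (sidonF_mono (filter_subset _ _) (sidonF_image ha.sidon x)) (by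
      intro b hb
      rw [mem_filter, mem_image] at hb
      obtain ⟨⟨i, -, rfl⟩, h3⟩ := hb
      exact ⟨ha.all_pos i, h3⟩)
  have h4 : √(Real.log ((x ^ 4 : ℕ) : ℝ)) = 2 * √(Real.log x) := by
    push_cast
    rw [Real.log_pow]
    push_cast
    rw [show (4 : ℝ) * Real.log x = 2 ^ 2 * Real.log x by ring, Real.sqrt_mul (by norm_num),
      Real.sqrt_sq (by norm_num)]
  rw [h4] at h3
  have h5 : K ≤ |K| := le_abs_self K
  have h6 : 0 ≤ √(Real.log x) := Real.sqrt_nonneg _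
  nlinarith

end Pool.Agent.Work.MP_bbb683_l63
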