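import Mathlib
import Pool.Agent.Work.MP_bbb683_l63.Loc

/-!
# MP_bbb683_co: the dyadic form
-/

set_option autoImplicit false

namespace Pool.Agent.Work.MP_bbb683_l63

open Finset
open Pool.Agent.Work.MP_bbb683_h63 (SidonF sidonF_image)

/-- the elements between `2 ^ k` and `2 ^ (k + 1)` -/
def dy (B : Finset ℕ) (k : ℕ) : Finset ℕ := B.filter fun b => 2 ^ k ≤ b ∧ b < 2 ^ (k + 1)

theorem mem_dy {B : Finset ℕ} {k b : ℕ} : b ∈ dy B k ↔ b ∈ B ∧ 2 ^ k ≤ b ∧ b < 2 ^ (k + 1) := by
  unfold dy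
  rw [mem_filter]

theorem dy_eq {B : Finset ℕ} (hB : ∀ b ∈ B, 0 < b) (k : ℕ) :
    dy B k = B.filter fun b => Nat.log 2 b = k := by
  ext b
  rw [mem_dy, mem_filter]
  constructor
  · rintro ⟨h1, h2⟩
    exact ⟨h1, (Nat.log_eq_iff (Or.inr ⟨by norm_num, by have := hB b h1; omega⟩)).2 h2⟩
  · rintro ⟨h1, h2⟩
    exact ⟨h1, (Nat.log_eq_iff (Or.inr ⟨by norm_num, by have := hB b h1; omega⟩)).1 h2⟩

/-- local version with dyadic densities -/
def DyadF (ε c : ℝ) : Prop := ∀ N₀ : ℕ, ∃ N, N₀ ≤ N ∧ ∃ B : Finset ℕ, SidonF B ∧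
  (∀ b ∈ B, N ≤ b ∧ (b : ℝ) ≤ (N : ℝ) ^ (1 + ε)) ∧ ∃ K : Finset ℕ, c * Real.log N ≤ K.card ∧
    ∀ k ∈ K, c * √(2 ^ k / Real.log N) ≤ (dy B k).card

theorem coll (B : Finset ℕ) (f : ℕ → ℕ) :
    (B.card : ℝ) ^ 2 ≤ ((B.image f).card : ℝ) *
      ((B ×ˢ B).filter fun q => f q.1 = f q.2).card := by
  classical
  set I := B.image f with hI
  set E := (B ×ˢ B).filter fun q => f q.1 = f q.2 with hE
  have hmem : ∀ b ∈ B, f b ∈ I := fun b hb => by rw [hI]; exact mem_image_of_mem _ hb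
  have e1 : E.card = ∑ c ∈ I, ((B.filter fun b => f b = c).card) ^ 2 := by
    have h1 : ∀ q ∈ E, f q.1 ∈ I := by
      intro q hq
      rw [hE, mem_filter, mem_product] at hq
      exact hmem _ hq.1.1
    rw [card_eq_sum_card_fiberwise h1]
    refine sum_congr rfl fun c _ => ?_
    rw [sq, ← card_product]
    congr 1
    ext q
    rw [hE]
    simp only [mem_filter, mem_product]
    constructor
    · rintro ⟨⟨⟨h2, h3⟩, h4⟩, h5⟩
      exact ⟨⟨h2, h5⟩, ⟨h3, by rw [← h4, h5]⟩⟩
    · rintro ⟨⟨h2, h3⟩, ⟨h4, h5⟩⟩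
      exact ⟨⟨⟨h2, h4⟩, by rw [h3, h5]⟩, h3⟩
  have e2 : B.card = ∑ c ∈ I, (B.filter fun b => f b = c).card :=
    card_eq_sum_card_fiberwise hmem
  have e3 := sq_sum_le_card_mul_sum_sq (s := I)
    (f := fun c => ((B.filter fun b => f b = c).card : ℝ))
  have e4 : (B.card : ℝ) = ∑ c ∈ I, ((B.filter fun b => f b = c).card : ℝ) := by
    rw [e2]; push_cast; rfl
  have e5 : (E.card : ℝ) = ∑ c ∈ I, ((B.filter fun b => f b = c).card : ℝ) ^ 2 := by
    rw [e1]; push_cast; rfl
  rw [e4, e5]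
  exact e3

/-- the pairs at distance `< L` -/
theorem close_pairs {B : Finset ℕ} (hB : SidonF B) (L : ℕ) (P : ℕ → ℕ → Prop)
    [∀ x y, Decidable (P x y)] (hP : ∀ x ∈ B, ∀ y ∈ B, P x y → x < y + L ∧ y < x + L) :
    ((B ×ˢ B).filter fun q => P q.1 q.2).card ≤ B.card + 2 * L := by
  classical
  set D := (B ×ˢ B).filter fun q => q.1 < q.2 ∧ q.2 < q.1 + L with hD
  have h1 : D.card ≤ L := by
    have h0 : D.card ≤ (range L).card := by
      apply Finset.card_le_card_of_injOn (fun q => q.2 - q.1)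
      · rintro ⟨x, y⟩ hq
        have hq' := mem_coe.1 hq
        rw [hD, mem_filter] at hq'
        simp only [coe_range, Set.mem_Iio]
        simp only at hq'
        omega
      · rintro ⟨x, y⟩ hq ⟨x', y'⟩ hq' he
        have h2 := mem_coe.1 hq
        have h3 := mem_coe.1 hq'
        rw [hD, mem_filter, mem_product] at h2 h3
        simp only at h2 h3 he
        rcases hB y h2.1.2 x' h3.1.1 y' h3.1.2 x h2.1.1 (by omega) with h4 | h4
        · rw [h4.1, h4.2]
        · omega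
    rwa [card_range] at h0
  have h2 : ((B ×ˢ B).filter fun q => P q.1 q.2) ⊆
      (B.image fun b => (b, b)) ∪ (D ∪ D.image Prod.swap) := by
    rintro ⟨x, y⟩ hq
    rw [mem_filter, mem_product] at hq
    simp only at hq
    obtain ⟨⟨hx, hy⟩, hxy⟩ := hq
    obtain ⟨e1, e2⟩ := hP x hx y hy hxy
    rw [mem_union, mem_union]
    rcases lt_trichotomy x y with h3 | h3 | h3
    · right; left
      rw [hD, mem_filter, mem_product]
      exact ⟨⟨hx, hy⟩, h3, e2⟩
    · left
      rw [mem_image]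
      exact ⟨x, hx, by rw [h3]⟩
    · right; right
      rw [mem_image]
      refine ⟨(y, x), ?_, rfl⟩
      rw [hD, mem_filter, mem_product]
      exact ⟨⟨hy, hx⟩, h3, e1⟩
  have h3 := card_le_card h2
  have h4 := card_union_le (B.image fun b => (b, b)) (D ∪ D.image Prod.swap)
  have h5 := card_union_le D (D.image Prod.swap)
  have h6 : (B.image fun b => (b, b)).card ≤ B.card := card_image_le
  have h7 : (D.image Prod.swap).card ≤ D.card := card_image_le
  omega

theorem card_le_two {B : Finset ℕ} (hB : SidonF B) (N : ℕ) (hN : 1 ≤ N)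
    (h : ∀ b ∈ B, 0 < b ∧ b ≤ N ^ 2) : B.card ≤ 2 * N := by
  classical
  have h1 := close_pairs hB (N ^ 2) (fun _ _ => True) (by
    intro x hx y hy _
    have := h x hx
    have := h y hy
    omega)
  rw [Finset.filter_true_of_mem (fun _ _ => trivial), card_product] at h1
  by_contra hcon
  rw [not_le] at hcon
  nlinarith

/-- the inequality of Erdős for the dyadic densities -/
theorem dyad_sum {B : Finset ℕ} (hB : SidonF B) (N : ℕ) (hN : 1 ≤ N)
    (h : ∀ b ∈ B, N ≤ b ∧ b ≤ N ^ 2) (R : ℕ) :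
    ∑ k ∈ range R, ((dy B k).card : ℝ) ^ 2 / 2 ^ k ≤ 25 := by
  classical
  have hpos : ∀ b ∈ B, 0 < b := fun b hb => by have := (h b hb).1; omega
  have hN0 : (0 : ℝ) < N := by exact_mod_cast hN
  set E : ℕ → Finset (ℕ × ℕ) := fun k =>
    (dy B k ×ˢ dy B k).filter fun q => q.1 / N = q.2 / N with hE
  -- one block
  have h1 : ∀ k, ((dy B k).card : ℝ) ^ 2 / 2 ^ k ≤ 5 / N * (E k).card := by
    intro k
    have e1 := coll (dy B k) (· / N)
    rcases (dy B k).eq_empty_or_nonempty with h0 | ⟨b₀, hb₀⟩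
    · rw [h0]
      simp
      positivity
    · rw [mem_dy] at hb₀
      have e2 : ((dy B k).image (· / N)) ⊆ Icc (2 ^ k / N) ((2 ^ (k + 1)) / N) := by
        intro z hz
        rw [mem_image] at hz
        obtain ⟨b, hb, rfl⟩ := hz
        rw [mem_dy] at hb
        rw [mem_Icc]
        exact ⟨Nat.div_le_div_right hb.2.1, Nat.div_le_div_right hb.2.2.le⟩
      have e3 := card_le_card e2
      rw [Nat.card_Icc] at e3
      have e4 : (2 ^ (k + 1) / N : ℕ) + 1 - 2 ^ k / N ≤ 2 ^ k / N + 2 := by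
        have e5 : 2 ^ (k + 1) / N ≤ 2 * (2 ^ k / N) + 1 := by
          rw [pow_succ]
          have e6 : 2 ^ k < N * (2 ^ k / N + 1) := Nat.lt_mul_div_succ _ (by omega)
          have e7 : 2 ^ k * 2 < N * (2 * (2 ^ k / N) + 1 + 1) := by nlinarith
          have e8 : 2 ^ k * 2 / N < 2 * (2 ^ k / N) + 1 + 1 :=
            Nat.div_lt_of_lt_mul e7
          omega
        omega
      have e5 : (((dy B k).image (· / N)).card : ℝ) ≤ 5 * 2 ^ k / N := by
        have e6 : ((2 ^ k / N : ℕ) : ℝ) ≤ 2 ^ k / N := by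
          have := @Nat.cast_div_le ℝ _ _ _ (2 ^ k) N
          push_cast at this
          exact this
        have e7 : (((dy B k).image (· / N)).card : ℝ) ≤ ((2 ^ k / N : ℕ) : ℝ) + 2 := by
          exact_mod_cast e3.trans e4
        have e8 : (2 : ℝ) ≤ 4 * (2 ^ k / N) := by
          have e9 : (N : ℝ) ≤ 2 ^ (k + 1) := by
            exact_mod_cast (h b₀ hb₀.1).1.trans hb₀.2.2.le
          rw [← mul_div_assoc, le_div_iff₀ hN0]
          rw [pow_succ] at e9
          linarith
        calc (((dy B k).image (· / N)).card : ℝ) ≤ 2 ^ k / N + 4 * (2 ^ k / N) := by linarith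
          _ = 5 * 2 ^ k / N := by ring
      rw [div_le_iff₀ (by positivity)]
      calc ((dy B k).card : ℝ) ^ 2 ≤ (((dy B k).image (· / N)).card : ℝ) * (E k).card := e1
        _ ≤ (5 * 2 ^ k / N) * (E k).card := mul_le_mul_of_nonneg_right e5 (Nat.cast_nonneg _)
        _ = 5 / N * (E k).card * 2 ^ k := by ring
  -- all blocks
  have h2 : ∑ k ∈ range R, (E k).card ≤ ((B ×ˢ B).filter fun q => q.1 / N = q.2 / N).card := by
    rw [← card_biUnion]
    · apply card_le_card
      intro q hq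
      rw [mem_biUnion] at hq
      obtain ⟨k, -, hq⟩ := hq
      rw [hE] at hq
      simp only [mem_filter, mem_product, mem_dy] at hq ⊢
      exact ⟨⟨hq.1.1.1, hq.1.2.1⟩, hq.2⟩
    · intro k _ l _ hkl
      rw [Function.onFun, Finset.disjoint_left]
      intro q hq hq'
      rw [hE] at hq hq'
      simp only [mem_filter, mem_product] at hq hq'
      have e1 := hq.1.1
      have e2 := hq'.1.1
      rw [dy_eq hpos, mem_filter] at e1 e2
      exact hkl (e1.2.symm.trans e2.2)
  have h3 := close_pairs hB N (fun x y => x / N = y / N) (by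
    intro x _ y _ hxy
    have e1 := Nat.lt_mul_div_succ x (show 0 < N by omega)
    have e2 := Nat.lt_mul_div_succ y (show 0 < N by omega)
    have e3 := Nat.mul_div_le x N
    have e4 := Nat.mul_div_le y N
    rw [hxy] at e1 e3
    rw [mul_add, mul_one] at e1 e2
    omega)
  have h4 := card_le_two hB N hN (fun b hb => ⟨hpos b hb, (h b hb).2⟩)
  have h5 : ((∑ k ∈ range R, (E k).card : ℕ) : ℝ) ≤ 4 * N := by
    exact_mod_cast (by omega : ∑ k ∈ range R, (E k).card ≤ 4 * N)
  calc ∑ k ∈ range R, ((dy B k).card : ℝ) ^ 2 / 2 ^ k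
      ≤ ∑ k ∈ range R, 5 / (N : ℝ) * ((E k).card : ℝ) := Finset.sum_le_sum fun k _ => h1 k
    _ = 5 / (N : ℝ) * ((∑ k ∈ range R, (E k).card : ℕ) : ℝ) := by
        rw [← Finset.mul_sum]; push_cast; rfl
    _ ≤ 5 / (N : ℝ) * (4 * N) := mul_le_mul_of_nonneg_left h5 (by positivity)
    _ = 20 := by field_simp; norm_num
    _ ≤ 25 := by norm_num

theorem w_dy {B : Finset ℕ} (hpos : ∀ b ∈ B, 0 < b) (R : ℕ) (hR : ∀ b ∈ B, Nat.log 2 b < R) :
    w B = ∑ k ∈ range R, w (dy B k) := by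
  classical
  have h1 : ∑ k ∈ range R, w (dy B k) = ∑ k ∈ range R, w (B.filter fun b => Nat.log 2 b = k) :=
    Finset.sum_congr rfl fun k _ => by rw [dy_eq hpos]
  rw [h1]
  unfold w
  exact (Finset.sum_fiberwise_of_maps_to (fun b hb => mem_range.2 (hR b hb)) _).symm

theorem dyad_of_loc {ε c : ℝ} (hε1 : ε ≤ 1) (hc : 0 < c) (h : LocF ε c) :
    DyadF ε (min (c / 10) (c ^ 2 / 100)) := by
  classical
  intro N₀
  obtain ⟨N, hN, B, hB, hBN, hw⟩ := h (N₀ + 2)
  have hN2 : (2 : ℝ) ≤ N := by exact_mod_cast (by omega : 2 ≤ N)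
  have hN0 : (0 : ℝ) < N := by linarith
  have hlog : 0 < Real.log N := Real.log_pos (by linarith)
  have hpos : ∀ b ∈ B, 0 < b := fun b hb => by have := (hBN b hb).1; omega
  have hB2 : ∀ b ∈ B, N ≤ b ∧ b ≤ N ^ 2 := by
    intro b hb
    refine ⟨(hBN b hb).1, ?_⟩
    have h1 : (b : ℝ) ≤ (N : ℝ) ^ (2 : ℝ) :=
      (hBN b hb).2.trans (Real.rpow_le_rpow_of_exponent_le (by linarith) (by linarith))
    rw [Real.rpow_two] at h1
    exact_mod_cast h1
  set R := Nat.log 2 (N ^ 2) + 1 with hR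
  have hRk : ∀ b ∈ B, Nat.log 2 b < R := by
    intro b hb
    have := Nat.log_mono_right (b := 2) (hB2 b hb).2
    omega
  have hRlog : (R : ℝ) ≤ 5 * Real.log N := by
    have h1 : (2 : ℝ) ^ (Nat.log 2 (N ^ 2)) ≤ (N : ℝ) ^ 2 := by
      exact_mod_cast Nat.pow_log_le_self 2 (by
        have : 0 < N ^ 2 := pow_pos (by omega) 2
        omega)
    have h2 := Real.log_le_log (by positivity) h1
    rw [Real.log_pow, Real.log_pow] at h2
    have h3 := Real.log_two_gt_d9
    have h4 : Real.log 2 ≤ Real.log N := Real.log_le_log (by norm_num) hN2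
    rw [hR]
    push_cast at h2 ⊢
    nlinarith
  set δ : ℕ → ℝ := fun k => (dy B k).card / √(2 ^ k) with hδ
  have hδ0 : ∀ k, 0 ≤ δ k := fun k => by positivity
  have h1 : w B ≤ ∑ k ∈ range R, δ k := by
    rw [w_dy hpos R hRk]
    apply Finset.sum_le_sum
    intro k _
    apply w_le_card _ _ (by positivity)
    intro b hb
    rw [Real.sq_sqrt (by positivity)]
    exact_mod_cast (mem_dy.1 hb).2.1
  set L := Real.log (N : ℝ) with hL
  set s := √L with hs
  have hs0 : 0 < s := Real.sqrt_pos.2 hlog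
  have hss : s * s = L := Real.mul_self_sqrt hlog.le
  set G := (range R).filter fun k => c / 10 / s ≤ δ k with hG
  have h2 : ∑ k ∈ (range R).filter (fun k => ¬ c / 10 / s ≤ δ k), δ k ≤ c / 2 * s := by
    calc ∑ k ∈ (range R).filter (fun k => ¬ c / 10 / s ≤ δ k), δ k
        ≤ ((range R).filter (fun k => ¬ c / 10 / s ≤ δ k)).card • (c / 10 / s) := by
          apply Finset.sum_le_card_nsmul
          intro k hk
          rw [mem_filter, not_le] at hk
          exact hk.2.le
      _ ≤ R * (c / 10 / s) := by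
          rw [nsmul_eq_mul]
          apply mul_le_mul_of_nonneg_right _ (by positivity)
          have := card_filter_le (range R) (fun k => ¬ c / 10 / s ≤ δ k)
          rw [card_range] at this
          exact_mod_cast this
      _ ≤ 5 * L * (c / 10 / s) := mul_le_mul_of_nonneg_right hRlog (by positivity)
      _ = c / 2 * s := by
          rw [← hss]
          field_simp
          ring
  have h3 : c / 2 * s ≤ ∑ k ∈ G, δ k := by
    have h4 := Finset.sum_filter_add_sum_filter_not (range R) (fun k => c / 10 / s ≤ δ k) δ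
    have h5 : c * s ≤ ∑ k ∈ range R, δ k := hw.trans h1
    rw [← h4] at h5
    have h6 : ∑ k ∈ (range R).filter (fun k => c / 10 / s ≤ δ k), δ k = ∑ k ∈ G, δ k := rfl
    linarith
  have h4 : (∑ k ∈ G, δ k) ^ 2 ≤ G.card * 25 := by
    have h5 := sq_sum_le_card_mul_sum_sq (s := G) (f := δ)
    have h6 : ∑ k ∈ G, δ k ^ 2 ≤ 25 := by
      calc ∑ k ∈ G, δ k ^ 2 ≤ ∑ k ∈ range R, δ k ^ 2 :=
            Finset.sum_le_sum_of_subset_of_nonneg (filter_subset _ _) fun k _ _ => by positivity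
        _ = ∑ k ∈ range R, ((dy B k).card : ℝ) ^ 2 / 2 ^ k := by
            apply Finset.sum_congr rfl
            intro k _
            rw [hδ]
            simp only
            rw [div_pow, Real.sq_sqrt (by positivity)]
        _ ≤ 25 := dyad_sum hB N (by omega) hB2 R
    calc (∑ k ∈ G, δ k) ^ 2 ≤ G.card * ∑ k ∈ G, δ k ^ 2 := h5
      _ ≤ G.card * 25 := mul_le_mul_of_nonneg_left h6 (Nat.cast_nonneg _)
  have h5 : c ^ 2 / 100 * L ≤ G.card := by
    have h6 : (c / 2 * s) ^ 2 ≤ (∑ k ∈ G, δ k) ^ 2 :=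
      pow_le_pow_left₀ (by positivity) h3 2
    have h7 : (c / 2 * s) ^ 2 = c ^ 2 / 4 * L := by
      rw [← hss]; ring
    rw [h7] at h6
    linarith
  refine ⟨N, by omega, B, hB, hBN, G, ?_, ?_⟩
  · calc min (c / 10) (c ^ 2 / 100) * L ≤ c ^ 2 / 100 * L :=
          mul_le_mul_of_nonneg_right (min_le_right _ _) hlog.le
      _ ≤ G.card := h5
  · intro k hk
    rw [hG, mem_filter] at hk
    have h6 := hk.2
    rw [hδ] at h6
    simp only at h6
    rw [div_le_div_iff₀ hs0 (by positivity)] at h6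
    calc min (c / 10) (c ^ 2 / 100) * √(2 ^ k / L) ≤ c / 10 * √(2 ^ k / L) :=
          mul_le_mul_of_nonneg_right (min_le_left _ _) (Real.sqrt_nonneg _)
      _ = c / 10 * √(2 ^ k) / s := by
          rw [Real.sqrt_div (by positivity), hs]
          ring
      _ ≤ (dy B k).card := by
          rw [div_le_iff₀ hs0]
          exact h6

theorem loc_of_dyad {ε c : ℝ} (hc : 0 < c) (h : DyadF ε c) : LocF ε (c ^ 2 / 2) := by
  classical
  intro N₀
  obtain ⟨N, hN, B, hB, hBN, K, hK1, hK2⟩ := h (N₀ + 2)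
  refine ⟨N, by omega, B, hB, hBN, ?_⟩
  have hN2 : (2 : ℝ) ≤ N := by exact_mod_cast (by omega : 2 ≤ N)
  have hlog : 0 < Real.log N := Real.log_pos (by linarith)
  have hpos : ∀ b ∈ B, 0 < b := fun b hb => by have := (hBN b hb).1; omega
  set L := Real.log (N : ℝ) with hL
  set s := √L with hs
  have hs0 : 0 < s := Real.sqrt_pos.2 hlog
  have hss : s * s = L := Real.mul_self_sqrt hlog.le
  set R := K.sup id + 1 + (B.sup fun b => Nat.log 2 b) + 1 with hR
  have hKR : K ⊆ range R := by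
    intro k hk
    rw [mem_range]
    have : k ≤ K.sup id := Finset.le_sup (f := id) hk
    omega
  have hBR : ∀ b ∈ B, Nat.log 2 b < R := by
    intro b hb
    have : Nat.log 2 b ≤ B.sup fun b => Nat.log 2 b := Finset.le_sup (f := fun b => Nat.log 2 b) hb
    omega
  rw [w_dy hpos R hBR]
  have h1 : ∀ k ∈ K, c / 2 / s ≤ w (dy B k) := by
    intro k hk
    have h2 := hK2 k hk
    rw [Real.sqrt_div (by positivity), ← hs] at h2
    have h3 : ((dy B k).card : ℝ) * (1 / √(2 ^ (k + 1))) ≤ w (dy B k) := by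
      unfold w
      rw [← nsmul_eq_mul]
      apply Finset.card_nsmul_le_sum
      intro b hb
      have h4 := (mem_dy.1 hb).2.2
      have h5 := hpos b (mem_dy.1 hb).1
      apply one_div_le_one_div_of_le
      · exact Real.sqrt_pos.2 (by exact_mod_cast h5)
      · apply Real.sqrt_le_sqrt
        exact_mod_cast h4.le
    refine le_trans ?_ h3
    have h4 : √((2 : ℝ) ^ (k + 1)) ≤ 2 * √(2 ^ k) := by
      rw [Real.sqrt_le_left (by positivity), mul_pow, Real.sq_sqrt (by positivity), pow_succ]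
      have : (0 : ℝ) < 2 ^ k := by positivity
      linarith
    have h5 : (0 : ℝ) < √(2 ^ k) := by positivity
    have h6 : (0 : ℝ) < √(2 ^ (k + 1)) := by positivity
    rw [mul_one_div, div_div, div_le_div_iff₀ (by positivity) h6]
    have h7 : c * √(2 ^ k) ≤ (dy B k).card * s := by
      have h8 : c * (√(2 ^ k) / s) * s ≤ (dy B k).card * s :=
        mul_le_mul_of_nonneg_right h2 hs0.le
      have h9 : c * (√(2 ^ k) / s) * s = c * √(2 ^ k) := by
        field_simp
      rwa [h9] at h8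
    calc c * √(2 ^ (k + 1)) ≤ c * (2 * √(2 ^ k)) := mul_le_mul_of_nonneg_left h4 hc.le
      _ = 2 * (c * √(2 ^ k)) := by ring
      _ ≤ 2 * ((dy B k).card * s) := by linarith
      _ = (dy B k).card * (2 * s) := by ring
  calc c ^ 2 / 2 * s = c * L * (c / 2 / s) := by
        rw [← hss]; field_simp
    _ ≤ K.card * (c / 2 / s) := mul_le_mul_of_nonneg_right hK1 (by positivity)
    _ = K.card • (c / 2 / s) := by rw [nsmul_eq_mul]
    _ ≤ ∑ k ∈ K, w (dy B k) := Finset.card_nsmul_le_sum _ _ _ h1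
    _ ≤ ∑ k ∈ range R, w (dy B k) :=
        Finset.sum_le_sum_of_subset_of_nonneg hKR fun k _ _ => w_nonneg _

theorem dyad_mono {ε ε' c : ℝ} (h : ε ≤ ε') (hD : DyadF ε c) : DyadF ε' c := by
  intro N₀
  obtain ⟨N, hN, B, hB, hBN, hK⟩ := hD (N₀ + 1)
  refine ⟨N, by omega, B, hB, fun b hb => ⟨(hBN b hb).1, (hBN b hb).2.trans ?_⟩, hK⟩
  exact Real.rpow_le_rpow_of_exponent_le (by exact_mod_cast (by omega : 1 ≤ N)) (by linarith)

end Pool.Agent.Work.MP_bbb683_l63
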