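import Mathlib
import Pool.Agent.Work.MP_bbb683_l63.Loc

/-!
# MP_bbb683_co: the version for all `x`
-/

set_option autoImplicit false

namespace Pool.Agent.Work.MP_bbb683_l63

open Finset
open Pool.Agent.Work.MP_bbb683_h63 (SidonF sidonF_image)

theorem diffLE_of_sidonF {B : Finset ℕ} (hB : SidonF B) :
    Pool.Agent.Work.MP_bbb683_h63.DiffLE 1 B := by
  intro d hd
  rw [card_le_one]
  rintro ⟨x, y⟩ hq ⟨x', y'⟩ hq'
  rw [mem_filter, mem_product] at hq hq'
  simp only at hq hq'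
  rcases hB x hq.1.1 y' hq'.1.2 x' hq'.1.1 y hq.1.2 (by omega) with h | h
  · rw [h.1, h.2]
  · omega

/-- the bound of Erdős for finite Sidon sets -/
theorem upper : ∃ C : ℝ, 0 < C ∧ ∀ N : ℕ, 2 ≤ N → ∀ B : Finset ℕ, SidonF B →
    (∀ b ∈ B, 0 < b ∧ b ≤ N) → w B ≤ C * √(Real.log N) := by
  obtain ⟨C, hC0, hC⟩ := Pool.Agent.Work.MP_bbb683_h63.bound_U 1
  refine ⟨2 * C + 1, by linarith, fun N hN B hB hBN => ?_⟩
  have h1 := hC (fun p => p) (fun p hp => ⟨hp.one_lt.le, le_rfl⟩) B (diffLE_of_sidonF hB)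
    (by
      intro p hp
      have h2 : B.image (· % p) ⊆ range p := by
        intro z hz
        rw [mem_image] at hz
        obtain ⟨b, -, rfl⟩ := hz
        rw [mem_range]
        exact Nat.mod_lt _ hp.pos
      have h3 := card_le_card h2
      rwa [card_range] at h3) (Nat.log 2 N + 1) (by omega)
  have h2 : Pool.Agent.Work.MP_bbb683_h63.T B (Nat.log 2 N + 1) = w B := by
    unfold Pool.Agent.Work.MP_bbb683_h63.T w
    rw [Finset.filter_true_of_mem]
    intro b hb
    have h3 := (hBN b hb).2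
    have h4 : N < 2 ^ (Nat.log 2 N + 1) := Nat.lt_pow_succ_log_self (by norm_num) N
    have h5 : 2 ^ (Nat.log 2 N + 1) ≤ 2 ^ (6 * (Nat.log 2 N + 1)) :=
      Nat.pow_le_pow_right (by norm_num) (by omega)
    omega
  rw [h2] at h1
  have h3 : Pool.Agent.Work.MP_bbb683_h63.Phi (fun p => p) (Nat.log 2 N + 1) ≤
      √((Nat.log 2 N + 1 : ℕ) : ℝ) := by
    unfold Pool.Agent.Work.MP_bbb683_h63.Phi
    have h4 : Real.exp (-(1 / 2) * ∑ p ∈ Pool.Agent.Work.MP_bbb683_h63.PP (Nat.log 2 N + 1),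
        Pool.Agent.Work.MP_bbb683_h63.gain p p) ≤ 1 := by
      rw [Real.exp_le_one_iff]
      have h5 : 0 ≤ ∑ p ∈ Pool.Agent.Work.MP_bbb683_h63.PP (Nat.log 2 N + 1),
          Pool.Agent.Work.MP_bbb683_h63.gain p p := by
        apply Finset.sum_nonneg
        intro p hp
        rw [Pool.Agent.Work.MP_bbb683_h63.mem_PP] at hp
        exact Pool.Agent.Work.MP_bbb683_h63.gain_nonneg hp.1.one_lt.le le_rfl
      linarith
    calc √((Nat.log 2 N + 1 : ℕ) : ℝ) * Real.exp (-(1 / 2) *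
          ∑ p ∈ Pool.Agent.Work.MP_bbb683_h63.PP (Nat.log 2 N + 1),
            Pool.Agent.Work.MP_bbb683_h63.gain p p)
        ≤ √((Nat.log 2 N + 1 : ℕ) : ℝ) * 1 :=
          mul_le_mul_of_nonneg_left h4 (Real.sqrt_nonneg _)
      _ = √((Nat.log 2 N + 1 : ℕ) : ℝ) := mul_one _
  have h4 := Pool.Agent.Work.MP_bbb683_h63.log_x N hN 0
  have h5 : √((Nat.log 2 N + 1 : ℕ) : ℝ) ≤ 2 * √(Real.log N) := by
    calc √((Nat.log 2 N + 1 : ℕ) : ℝ) ≤ √(2 ^ 2 * Real.log N) := by
          apply Real.sqrt_le_sqrt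
          have : ((Nat.log 2 N + 1 + 0 : ℕ) : ℝ) ≤ (4 + 2 * 0) * Real.log N := by
            simpa using h4
          simp only [add_zero, mul_zero] at this
          linarith
      _ = 2 * √(Real.log N) := by
          rw [Real.sqrt_mul (by norm_num), Real.sqrt_sq (by norm_num)]
  have h6 : 0 ≤ √(Real.log N) := Real.sqrt_nonneg _
  calc w B ≤ C * Pool.Agent.Work.MP_bbb683_h63.Phi (fun p => p) (Nat.log 2 N + 1) := h1
    _ ≤ C * (2 * √(Real.log N)) := mul_le_mul_of_nonneg_left (h3.trans h5) hC0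
    _ ≤ (2 * C + 1) * √(Real.log N) := by nlinarith

/-- the scales -/
def Rn (r s : ℕ) : ℕ → ℕ
  | 0 => r
  | n + 1 => (Rn r s n) ^ (3 * s)

theorem Rn_ge {r s : ℕ} (hr : 9 ≤ r) (hs : 1 ≤ s) (n : ℕ) : r ≤ Rn r s n ∧ n ≤ Rn r s n := by
  induction n with
  | zero => exact ⟨le_rfl, Nat.zero_le _⟩
  | succ n ih =>
    have h1 : (Rn r s n) ^ 2 ≤ (Rn r s n) ^ (3 * s) :=
      Nat.pow_le_pow_right (by omega) (by omega)
    have h2 : Rn r s (n + 1) = (Rn r s n) ^ (3 * s) := rfl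
    rw [h2]
    constructor <;> nlinarith [ih.1, ih.2]

theorem liminf_seq {c : ℝ} (hc : 0 < c) {N₀ : ℕ} (h : ∀ N : ℕ, N₀ ≤ N → ∃ B : Finset ℕ, SidonF B ∧
    (∀ b ∈ B, 0 < b ∧ b ≤ N) ∧ c * √(Real.log N) ≤ w B) :
    ∃ a : ℕ → ℕ, SS a ∧ ∃ c' : ℝ, 0 < c' ∧ ∀ x : ℕ, 2 ≤ x → c' * √(Real.log x) ≤ Sx a x := by
  classical
  obtain ⟨C, hC0, hC⟩ := upper
  -- the exponent
  obtain ⟨s, hs1, hsC⟩ : ∃ s : ℕ, 1 ≤ s ∧ C ≤ c / 2 * √(s : ℝ) := by
    refine ⟨⌈(2 * C / c) ^ 2⌉₊ + 1, by omega, ?_⟩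
    have h1 : 2 * C / c ≤ √((⌈(2 * C / c) ^ 2⌉₊ + 1 : ℕ) : ℝ) := by
      apply Real.le_sqrt_of_sq_le
      push_cast
      have := Nat.le_ceil ((2 * C / c) ^ 2)
      linarith
    rw [div_le_iff₀ hc] at h1
    linarith
  obtain ⟨X, hX2, hX⟩ := exists_log_ge (60 / c)
  set r : ℕ := max (max 9 N₀) X with hr
  have hr9 : 9 ≤ r := (le_max_left 9 N₀).trans (le_max_left _ _)
  have hrN : N₀ ≤ r := (le_max_right 9 N₀).trans (le_max_left _ _)
  have hrX : X ≤ r := le_max_right _ _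
  set R : ℕ → ℕ := Rn r s with hRdef
  have hRr : ∀ n, r ≤ R n := fun n => (Rn_ge hr9 hs1 n).1
  have hRn : ∀ n, n ≤ R n := fun n => (Rn_ge hr9 hs1 n).2
  have hRs : ∀ n, R (n + 1) = (R n) ^ (3 * s) := fun n => rfl
  have hs0 : (1 : ℝ) ≤ s := by exact_mod_cast hs1
  -- `q n = √(s log (R n))`
  set q : ℕ → ℝ := fun n => √(s * Real.log (R n)) with hq
  have hlogR : ∀ n, 60 / c ≤ √(Real.log (R n)) := fun n => hX (R n) (hrX.trans (hRr n))
  have hlog0 : ∀ n, 0 < Real.log (R n) := by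
    intro n
    apply Real.log_pos
    have : 1 < R n := by have := hRr n; omega
    exact_mod_cast this
  have hqn : ∀ n, √(Real.log (R n)) ≤ q n := by
    intro n
    apply Real.sqrt_le_sqrt
    have := hlog0 n
    nlinarith
  have hstep : ∀ (n : ℕ) (A : Finset ℕ), (SidonF A ∧ (∀ a ∈ A, 0 < a) ∧
      (∀ a ∈ A, a ≤ 2 * (R n) ^ s) ∧ (n = 0 ∨ c / 12 * q n ≤ w A)) →
      ∃ A' : Finset ℕ, (SidonF A' ∧ (∀ a ∈ A', 0 < a) ∧
        (∀ a ∈ A', a ≤ 2 * (R (n + 1)) ^ s) ∧ (n + 1 = 0 ∨ c / 12 * q (n + 1) ≤ w A')) ∧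
        EE A A' := by
    intro n A ⟨h1, h2, h3, _⟩
    set Y := (R n) ^ s with hY
    have hY9 : 9 ≤ Y := by
      calc 9 ≤ R n := hr9.trans (hRr n)
        _ = (R n) ^ 1 := (pow_one _).symm
        _ ≤ (R n) ^ s := Nat.pow_le_pow_right (by have := hRr n; omega) hs1
    have hRY : R (n + 1) = Y ^ 3 := by
      rw [hRs, hY, ← pow_mul, mul_comm]
    have hY81 : 81 ≤ Y ^ 2 := by nlinarith
    have hY3 : Y ^ 3 = Y ^ 2 * Y := by ring
    have hM1 : 11 * (2 * Y + 1) ≤ R (n + 1) := by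
      rw [hRY, hY3]
      nlinarith
    have hM2 : (2 * Y + 1) ^ 2 ≤ R (n + 1) := by
      rw [hRY]
      have : (2 * Y + 1) ^ 2 ≤ (3 * Y) ^ 2 := Nat.pow_le_pow_left (by omega) 2
      nlinarith
    have hR1 : R (n + 1) ≤ (R (n + 1)) ^ s := by
      calc R (n + 1) = (R (n + 1)) ^ 1 := (pow_one _).symm
        _ ≤ (R (n + 1)) ^ s := Nat.pow_le_pow_right (by have := hRr (n + 1); omega) hs1
    obtain ⟨B, hB1, hB2, hB3⟩ := h ((R (n + 1)) ^ s) (by
      have := hRr (n + 1); omega)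
    have hlp : Real.log (((R (n + 1)) ^ s : ℕ) : ℝ) = s * Real.log (R (n + 1)) := by
      push_cast
      rw [Real.log_pow]
    rw [hlp] at hB3
    have hsplit := w_split B (· < R (n + 1))
    have hlow : w (B.filter (· < R (n + 1))) ≤ c / 2 * q (n + 1) := by
      have e1 := hC (R (n + 1)) (by have := hRr (n + 1); omega) (B.filter (· < R (n + 1)))
        (sidonF_mono (filter_subset _ _) hB1) (by
          intro b hb
          rw [mem_filter] at hb
          exact ⟨(hB2 b hb.1).1, hb.2.le⟩)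
      have e2 : q (n + 1) = √(s : ℝ) * √(Real.log (R (n + 1))) := by
        rw [hq]
        simp only
        rw [Real.sqrt_mul (by positivity)]
      rw [e2]
      have e3 := Real.sqrt_nonneg (Real.log (R (n + 1) : ℝ))
      nlinarith
    have hhigh : c / 2 * q (n + 1) ≤ w (B.filter fun b => ¬ b < R (n + 1)) := by
      have : c * q (n + 1) ≤ w B := hB3
      linarith
    have hq60 : 60 ≤ c * q (n + 1) := by
      have e1 := (hlogR (n + 1)).trans (hqn (n + 1))
      rw [div_le_iff₀ hc] at e1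
      linarith
    obtain ⟨A', e1, e2, e3, e4, e5, e6⟩ := step_set A (B.filter fun b => ¬ b < R (n + 1))
      (2 * Y + 1) (R (n + 1)) h1 (sidonF_mono (filter_subset _ _) hB1) h2
      (fun a ha => by have := h3 a ha; omega) (by omega)
      (fun b hb => by rw [mem_filter] at hb; omega) hM1 hM2 (by linarith)
    refine ⟨A', ⟨e1, e2, ?_, Or.inr (by linarith)⟩, e3⟩
    intro a ha
    rcases e6 a ha with h7 | ⟨b, hb, h7⟩
    · omega
    · rw [mem_filter] at hb
      have := (hB2 b hb.1).2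
      omega
  obtain ⟨A, hA0, hA, hE⟩ := chain_exists (P := fun n A => SidonF A ∧ (∀ a ∈ A, 0 < a) ∧
      (∀ a ∈ A, a ≤ 2 * (R n) ^ s) ∧ (n = 0 ∨ c / 12 * q n ≤ w A)) (R := EE) ∅
    ⟨by intro a ha; simp at ha, by simp, by simp, Or.inl rfl⟩ hstep
  obtain ⟨a, ha, -, hSx⟩ := seq_of_chain A (fun n => (hA n).1) (fun n => (hA n).2.1) hE
  refine ⟨a, ha, ?_⟩
  set x₁ := 2 * (R 1) ^ s with hx₁
  have hS1 : 0 < Sx a 1 := by
    unfold Sx
    rw [Finset.sum_range_one]
    have : (0 : ℝ) < a 0 := by exact_mod_cast ha.pos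
    positivity
  have hx₁2 : 2 ≤ x₁ := by
    have : 1 ≤ (R 1) ^ s := Nat.one_le_pow _ _ (by have := hRr 1; omega)
    omega
  have hL1 : 0 < √(Real.log x₁) := by
    apply Real.sqrt_pos.2
    apply Real.log_pos
    exact_mod_cast (by omega : 1 < x₁)
  refine ⟨min (c / (24 * s)) (Sx a 1 / √(Real.log x₁)), lt_min (by positivity) (by positivity),
    fun x hx => ?_⟩
  have hlx : 0 ≤ √(Real.log x) := Real.sqrt_nonneg _
  rcases Nat.lt_or_ge x x₁ with hlt | hge
  · calc min (c / (24 * s)) (Sx a 1 / √(Real.log x₁)) * √(Real.log x)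
        ≤ Sx a 1 / √(Real.log x₁) * √(Real.log x₁) := by
          apply mul_le_mul (min_le_right _ _) _ hlx (by positivity)
          apply Real.sqrt_le_sqrt
          apply Real.log_le_log (by exact_mod_cast (by omega : 0 < x))
          exact_mod_cast hlt.le
      _ = Sx a 1 := by field_simp
      _ ≤ Sx a x := Sx_mono a (by omega)
  · -- the stage
    have hex : ∃ m, x < 2 * (R m) ^ s := by
      refine ⟨x + 1, ?_⟩
      have h1 := hRn (x + 1)
      have h2 : R (x + 1) ≤ (R (x + 1)) ^ s := by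
        calc R (x + 1) = (R (x + 1)) ^ 1 := (pow_one _).symm
          _ ≤ (R (x + 1)) ^ s := Nat.pow_le_pow_right (by have := hRr (x + 1); omega) hs1
      omega
    have hfind := Nat.find_spec hex
    have hmin := fun k => Nat.find_min (m := k) hex
    set m := Nat.find hex with hm
    have hmono : ∀ k, (R k) ^ s ≤ (R (k + 1)) ^ s := by
      intro k
      apply Nat.pow_le_pow_left
      rw [hRs]
      calc R k = (R k) ^ 1 := (pow_one _).symm
        _ ≤ (R k) ^ (3 * s) := Nat.pow_le_pow_right (by have := hRr k; omega) (by omega)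
    have hm2 : 2 ≤ m := by
      by_contra hcon
      have h1 := hmono 0
      simp only [zero_add] at h1
      have h2 : m = 0 ∨ m = 1 := by omega
      rcases h2 with h2 | h2
      · rw [h2] at hfind
        omega
      · rw [h2] at hfind
        omega
    obtain ⟨n, hn⟩ : ∃ n, m = n + 1 := ⟨m - 1, by omega⟩
    rw [hn] at hfind
    have h1 : ¬ x < 2 * (R n) ^ s := hmin n (by omega)
    rw [not_lt] at h1
    obtain ⟨-, g1, g2, g3⟩ := hA n
    have h2 : (A n).card ≤ x := by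
      have h3 : A n ⊆ Icc 1 (2 * (R n) ^ s) := by
        intro b hb
        rw [mem_Icc]
        exact ⟨g1 b hb, g2 b hb⟩
      have := card_le_card h3
      rw [Nat.card_Icc, Nat.add_sub_cancel] at this
      omega
    have h3 : c / 12 * q n ≤ Sx a x := by
      rcases g3 with g3 | g3
      · omega
      · calc c / 12 * q n ≤ w (A n) := g3
          _ = Sx a (A n).card := (hSx n).symm
          _ ≤ Sx a x := Sx_mono a h2
    have h4 : √(Real.log x) ≤ 2 * s * √(Real.log (R n)) := by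
      have e1 : Real.log x ≤ (2 * s) ^ 2 * Real.log (R n) := by
        have e2 : (x : ℝ) ≤ 2 * ((R (n + 1) : ℝ)) ^ s := by
          exact_mod_cast hfind.le
        have e3 : Real.log x ≤ Real.log 2 + s * (3 * s * Real.log (R n)) := by
          calc Real.log x ≤ Real.log (2 * ((R (n + 1) : ℝ)) ^ s) := by
                apply Real.log_le_log (by exact_mod_cast (by omega : 0 < x)) e2
            _ = Real.log 2 + s * (3 * s * Real.log (R n)) := by
                have hRp : (0 : ℝ) < R (n + 1) := by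
                  have := hRr (n + 1)
                  exact_mod_cast (by omega : 0 < R (n + 1))
                rw [Real.log_mul (by norm_num) (by positivity), Real.log_pow, hRs]
                push_cast
                rw [Real.log_pow]
                push_cast
                ring
        have e4 : Real.log 2 ≤ Real.log (R n) := by
          apply Real.log_le_log (by norm_num)
          have := hRr n
          exact_mod_cast (by omega : 2 ≤ R n)
        have e5 := hlog0 n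
        have e7 : (1 : ℝ) ≤ (s : ℝ) ^ 2 := by nlinarith
        have e6 : 1 * Real.log (R n) ≤ (s : ℝ) ^ 2 * Real.log (R n) :=
          mul_le_mul_of_nonneg_right e7 e5.le
        nlinarith
      calc √(Real.log x) ≤ √((2 * s) ^ 2 * Real.log (R n)) := Real.sqrt_le_sqrt e1
        _ = 2 * s * √(Real.log (R n)) := by
            rw [Real.sqrt_mul (by positivity), Real.sqrt_sq (by positivity)]
    calc min (c / (24 * s)) (Sx a 1 / √(Real.log x₁)) * √(Real.log x)
        ≤ c / (24 * s) * √(Real.log x) := mul_le_mul_of_nonneg_right (min_le_left _ _) hlx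
      _ ≤ c / (24 * s) * (2 * s * √(Real.log (R n))) :=
          mul_le_mul_of_nonneg_left h4 (by positivity)
      _ = c / 12 * √(Real.log (R n)) := by
          field_simp
          ring
      _ ≤ c / 12 * q n := mul_le_mul_of_nonneg_left (hqn n) (by positivity)
      _ ≤ Sx a x := h3

theorem sets_of_liminf {a : ℕ → ℕ} (ha : SS a) {c : ℝ} (hc : 0 < c)
    (h : ∀ x : ℕ, 2 ≤ x → c * √(Real.log x) ≤ Sx a x) :
    ∃ N₀ : ℕ, ∀ N : ℕ, N₀ ≤ N → ∃ B : Finset ℕ, SidonF B ∧
      (∀ b ∈ B, 0 < b ∧ b ≤ N) ∧ c / 4 * √(Real.log N) ≤ w B := by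
  classical
  obtain ⟨X, hX2, hX⟩ := exists_log_ge (12 / c)
  refine ⟨X + 16, fun N hN => ?_⟩
  set x := Nat.sqrt (Nat.sqrt N) with hx
  have h1 : x ^ 4 ≤ N := by
    calc x ^ 4 = (x * x) * (x * x) := by ring
      _ ≤ Nat.sqrt N * Nat.sqrt N := Nat.mul_le_mul (Nat.sqrt_le _) (Nat.sqrt_le _)
      _ ≤ N := Nat.sqrt_le N
  have h2 : N < (x + 1) ^ 4 := by
    have e1 : N < (Nat.sqrt N + 1) * (Nat.sqrt N + 1) := Nat.lt_succ_sqrt N
    have e2 : Nat.sqrt N < (x + 1) * (x + 1) := Nat.lt_succ_sqrt _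
    calc N < (Nat.sqrt N + 1) * (Nat.sqrt N + 1) := e1
      _ ≤ ((x + 1) * (x + 1)) * ((x + 1) * (x + 1)) := Nat.mul_le_mul e2 e2
      _ = (x + 1) ^ 4 := by ring
  have hx2 : 2 ≤ x := by
    by_contra hcon
    have h3 : (x + 1) ^ 4 ≤ 2 ^ 4 := Nat.pow_le_pow_left (by omega) 4
    omega
  refine ⟨((range x).image a).filter (· ≤ x ^ 4),
    sidonF_mono (filter_subset _ _) (sidonF_image ha.sidon x), ?_, ?_⟩
  · intro b hb
    rw [mem_filter, mem_image] at hb
    obtain ⟨⟨i, -, rfl⟩, h3⟩ := hb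
    exact ⟨ha.all_pos i, h3.trans h1⟩
  · have h3 := tail a ha x (by omega)
    have h4 := h x hx2
    have hxr : (2 : ℝ) ≤ x := by exact_mod_cast hx2
    have h5 : Real.log N ≤ 3 ^ 2 * Real.log x := by
      have e1 : (N : ℝ) ≤ ((x : ℝ) ^ 2) ^ 4 := by
        have e2 : (N : ℝ) ≤ ((x : ℝ) + 1) ^ 4 := by exact_mod_cast h2.le
        refine e2.trans (pow_le_pow_left₀ (by positivity) (by nlinarith) 4)
      have e3 : Real.log N ≤ 8 * Real.log x := by
        calc Real.log N ≤ Real.log (((x : ℝ) ^ 2) ^ 4) :=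
              Real.log_le_log (by exact_mod_cast (by omega : 0 < N)) e1
          _ = 8 * Real.log x := by
              rw [← pow_mul, Real.log_pow]; push_cast; ring
      have e4 : 0 ≤ Real.log x := Real.log_nonneg (by linarith)
      linarith
    have h6 : √(Real.log N) ≤ 3 * √(Real.log x) := by
      calc √(Real.log N) ≤ √(3 ^ 2 * Real.log x) := Real.sqrt_le_sqrt h5
        _ = 3 * √(Real.log x) := by
            rw [Real.sqrt_mul (by norm_num), Real.sqrt_sq (by norm_num)]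
    have h7 := hX N (by omega)
    rw [div_le_iff₀ hc] at h7
    nlinarith

end Pool.Agent.Work.MP_bbb683_l63
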